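import Mathlib
import Pool.Agent.N890.DG.Fast

/-!
# MP_55ef7c_ag, Q1: a rational self-map of `ℙ³` whose degrees grow like `n ^ 4`

Let `E` be the elliptic curve `y ^ 2 = x ^ 3 - 1` and let the group `μ₆` act diagonally on `E ^ 3`.
The matrix `U` with `U (P₁, P₂, P₃) = (P₁ + P₂, P₂ + P₃, P₃)` commutes with this action and gives
an automorphism of `E ^ 3 / μ₆`, a threefold which is birational to `ℙ³`. In terms of the twisted
curve `κ Y ^ 2 = X ^ 3 + κ - 1`, on which the third point is `(1, 1)`, the function field of the
quotient is generated by the first coordinates `u₁`, `u₂` of the first two points and by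
`w = (Y₁ - 1) / (Y₂ - 1)`.

Since `U ^ n (P₁, P₂, P₃) = (P₁ + n P₂ + C(n,2) P₃, P₂ + n P₃, P₃)`, the heights on the twisted
curve over the function field, which are quadratic up to bounded functions, show that the degree of
the `n`-th iterate is comparable with `n ^ 4`.

The upper bound follows from one half of the parallelogram law, proved with unique factorisation in
the ring of polynomials. For the lower bound the third point is specialised to the line
`[t : t : 1 : 2t]`, over which it becomes the tautological point on the quadratic twist of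
`y ^ 2 = x ^ 3 - 1` by `t ^ 3 - 1`, and the first coordinate of its `m`-th multiple has degree
`m ^ 2` by Manin's elementary argument.
-/

set_option autoImplicit false

namespace Pool.Agent.Results.MP_55ef7c_ag.QuarticGrowth

open Pool.Agent.N890.DG Filter Topology

/-- **A birational self-map of `ℙ³` with `deg (f ^ n) ≍ n ^ 4`.** -/
theorem result (K : Type*) [Field K] [CharZero K] :
    ∃ (d : ℕ) (F : Fin (3 + 1) → MvPolynomial (Fin (3 + 1)) K) (e : ℕ → ℕ),
      IsRationalMap F d ∧ IsDominant F ∧ IsBirational F ∧
      (∀ n m : ℕ, IsIterateDegree F n m ↔ m = e n) ∧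
      Comparable (fun n => (n : ℝ) ^ 4) (fun n => (e n : ℝ)) ∧
      Tendsto (fun n : ℕ => (e n : ℝ) ^ (1 / (n : ℝ))) atTop (𝓝 1) ∧
      ∀ δ : ℝ, Tendsto (fun n : ℕ => (e n : ℝ) ^ (1 / (n : ℝ))) atTop (𝓝 δ) →
        ∀ l : ℕ, l ≤ 3 → ¬ Comparable (fun n => (n : ℝ) ^ l * δ ^ n) (fun n => (e n : ℝ)) :=
  ⟨_, Main.F K, Degs.deg K, Main.F_map K, Main.F_dom K, Degs.F_bir K, Degs.deg_iff K,
    Fast.quartic K, Fast.rate_one (Fast.quartic K),
    fun _ hδ _ hl => Fast.not_comparable (Fast.quartic K) hδ hl⟩

end Pool.Agent.Results.MP_55ef7c_ag.QuarticGrowth
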